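import Pool.Agent.helper18.KU.Spec

set_option autoImplicit false

namespace Pool.Agent.KU

open Finset

noncomputable section

theorem S5 (hCR2 : CR2_stmt) (hT5 : T5_stmt) (hCNT : CNT_stmt) (hDEG : DEG_stmt)
    (hL3 : L3_stmt) (hL4 : L4_stmt) : S5_stmt := by
  intro V _ S X w hC hI h5 hIH
  by_cases h : CrDj S w
  · obtain ⟨v, hv, hle, hQ⟩ := hCNT V S X w hC hI h5 h
    obtain ⟨_, h4, h2, h25, _⟩ := (hDEG V S X w hC hI (by omega)).1 v hv
    have h1 := hC.root v hv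
    have hd : dg w S v = 3 ∨ dg w S v = 4 := by
      by_cases hx : X v = 2
      · have := h25 hx
        omega
      · omega
    rcases hd with hd | hd
    · exact hL3 V S X w hC hI h5 h hIH v hv hQ hle hd
    · exact hL4 V S X w hC hI h5 h hIH v hv hQ hle hd
  · obtain ⟨s, a, b, c, d, e1, e2, e3, e4, e5, e6, e7, e8, e9, e10, hS, ⟨g1, g2, g3, g4⟩,
      ⟨k1, k2, k3, k4⟩, z1, z2, z3, z4, hX⟩ := hCR2 V S X w hC hI h5 h
    rw [hS] at hX ⊢
    exact hT5 V X w s a b c d hC.sy e1 e2 e3 e4 e5 e6 e7 e8 e9 e10 g1 g2 g3 g4 k1 k2 k3 k4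
      z1 z2 z3 z4 hX

end

end Pool.Agent.KU
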