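import Pool.Agent.helper70.KU.Defs

/-!
# Module VU: upper bounds of `V` and `mu`
-/

namespace C048

open Real Finset

namespace VU

lemma sinh_le_mul_cosh {y : ℝ} (hy : 0 ≤ y) : sinh y ≤ y * cosh y := by
  have hmono : MonotoneOn (fun y : ℝ => y * cosh y - sinh y) (Set.Ici 0) := by
    apply monotoneOn_of_deriv_nonneg (convex_Ici 0)
    · fun_prop
    · fun_prop
    · intro x hx
      rw [interior_Ici] at hx
      have hx0 : 0 < x := hx
      have h1 : HasDerivAt (fun y : ℝ => y * cosh y - sinh y)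
          (1 * cosh x + x * sinh x - cosh x) x :=
        ((hasDerivAt_id x).mul (hasDerivAt_cosh x)).sub (hasDerivAt_sinh x)
      rw [h1.deriv]
      have : 0 ≤ x * sinh x := mul_nonneg hx0.le (sinh_nonneg_iff.2 hx0.le)
      linarith
  have := hmono (Set.mem_Ici.2 le_rfl) (Set.mem_Ici.2 hy) hy
  simp only [zero_mul, sinh_zero, sub_zero] at this
  linarith

lemma two_cosh_le {y : ℝ} (hy : 0 ≤ y) : 2 * cosh y - 2 ≤ y * sinh y := by
  have hmono : MonotoneOn (fun y : ℝ => y * sinh y - (2 * cosh y - 2)) (Set.Ici 0) := by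
    apply monotoneOn_of_deriv_nonneg (convex_Ici 0)
    · fun_prop
    · fun_prop
    · intro x hx
      rw [interior_Ici] at hx
      have hx0 : 0 < x := hx
      have h1 : HasDerivAt (fun y : ℝ => y * sinh y - (2 * cosh y - 2))
          (1 * sinh x + x * cosh x - 2 * sinh x) x :=
        ((hasDerivAt_id x).mul (hasDerivAt_sinh x)).sub (((hasDerivAt_cosh x).const_mul 2).sub_const 2)
      rw [h1.deriv]
      have := sinh_le_mul_cosh hx0.le
      linarith
  have := hmono (Set.mem_Ici.2 le_rfl) (Set.mem_Ici.2 hy) hy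
  simp only [zero_mul, cosh_zero] at this
  linarith

lemma three_sinh_le {y : ℝ} (hy : 0 ≤ y) : 3 * sinh y ≤ y * (2 + cosh y) := by
  have hmono : MonotoneOn (fun y : ℝ => y * (2 + cosh y) - 3 * sinh y) (Set.Ici 0) := by
    apply monotoneOn_of_deriv_nonneg (convex_Ici 0)
    · fun_prop
    · fun_prop
    · intro x hx
      rw [interior_Ici] at hx
      have hx0 : 0 < x := hx
      have h1 : HasDerivAt (fun y : ℝ => y * (2 + cosh y) - 3 * sinh y)
          (1 * (2 + cosh x) + x * sinh x - 3 * cosh x) x :=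
        ((hasDerivAt_id x).mul ((hasDerivAt_cosh x).const_add 2)).sub
          ((hasDerivAt_sinh x).const_mul 3)
      rw [h1.deriv]
      have := two_cosh_le hx0.le
      linarith
  have := hmono (Set.mem_Ici.2 le_rfl) (Set.mem_Ici.2 hy) hy
  simp only [zero_mul, sinh_zero, mul_zero, sub_zero] at this
  linarith

/-- Lazarevic's inequality -/
lemma lazarevic {z : ℝ} (hz : 0 < z) : z ^ 3 * cosh z ≤ sinh z ^ 3 := by
  have hmono : MonotoneOn (fun y : ℝ => 3 * log (sinh y) - log (cosh y) - 3 * log y)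
      (Set.Ioi 0) := by
    have hd : ∀ x : ℝ, 0 < x → HasDerivAt
        (fun y : ℝ => 3 * log (sinh y) - log (cosh y) - 3 * log y)
        (3 * (cosh x / sinh x) - sinh x / cosh x - 3 * x⁻¹) x := by
      intro x hx
      have hs : sinh x ≠ 0 := (sinh_pos_iff.2 hx).ne'
      have hc : cosh x ≠ 0 := (cosh_pos x).ne'
      exact ((((hasDerivAt_sinh x).log hs).const_mul 3).sub ((hasDerivAt_cosh x).log hc)).sub
        ((Real.hasDerivAt_log hx.ne').const_mul 3)
    apply monotoneOn_of_deriv_nonneg (convex_Ioi 0)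
    · intro x hx
      exact (hd x hx).continuousAt.continuousWithinAt
    · intro x hx
      rw [interior_Ioi] at hx
      exact (hd x hx).differentiableAt.differentiableWithinAt
    · intro x hx
      rw [interior_Ioi] at hx
      have hx0 : 0 < x := hx
      rw [(hd x hx0).deriv]
      have hs : 0 < sinh x := sinh_pos_iff.2 hx0
      have hc : 0 < cosh x := cosh_pos x
      have h3 := three_sinh_le (y := 2 * x) (by positivity)
      rw [sinh_two_mul, cosh_two_mul] at h3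
      have hcs := Real.cosh_sq x
      have e : 3 * (cosh x / sinh x) - sinh x / cosh x - 3 * x⁻¹ =
          (x * (3 * cosh x ^ 2 - sinh x ^ 2) - 3 * sinh x * cosh x) / (x * sinh x * cosh x) := by
        field_simp
      rw [e]
      apply div_nonneg _ (by positivity)
      nlinarith
  have hF : ∀ ε : ℝ, 0 < ε → ε ≤ z →
      -(ε ^ 2 / 2) ≤ 3 * log (sinh z) - log (cosh z) - 3 * log z := by
    intro ε h1 h2
    have h3 := hmono (Set.mem_Ioi.2 h1) (Set.mem_Ioi.2 hz) h2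
    simp only at h3
    have h4 : log ε ≤ log (sinh ε) := Real.log_le_log h1 (self_le_sinh_iff.2 h1.le)
    have h5 : log (cosh ε) ≤ ε ^ 2 / 2 := by
      have := Real.log_le_log (cosh_pos ε) (cosh_le_exp_half_sq ε)
      rwa [Real.log_exp] at this
    linarith
  have hF0 : 0 ≤ 3 * log (sinh z) - log (cosh z) - 3 * log z := by
    by_contra hneg
    push Not at hneg
    generalize hL : 3 * log (sinh z) - log (cosh z) - 3 * log z = L at *
    -- choose ε = min z (min 1 (-L))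
    have h1 : 0 < min z (min 1 (-L)) := lt_min hz (lt_min one_pos (by linarith))
    have h2 := hF _ h1 (min_le_left _ _)
    have h3 : min z (min 1 (-L)) ≤ 1 := (min_le_right _ _).trans (min_le_left _ _)
    have h4 : min z (min 1 (-L)) ≤ -L := (min_le_right _ _).trans (min_le_right _ _)
    generalize min z (min 1 (-L)) = ε at *
    nlinarith
  have hs : 0 < sinh z := sinh_pos_iff.2 hz
  have hc : 0 < cosh z := cosh_pos z
  have h6 : log (z ^ 3 * cosh z) ≤ log (sinh z ^ 3) := by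
    rw [Real.log_mul (by positivity) hc.ne', Real.log_pow, Real.log_pow]
    push_cast
    linarith
  exact (Real.log_le_log_iff (by positivity) (by positivity)).1 h6

lemma sum_sq_geom {x : ℝ} (hx0 : 0 ≤ x) (hx1 : x < 1) (N : ℕ) :
    ∑ i ∈ Icc 1 N, (i : ℝ) ^ 2 * x ^ i ≤ x * (1 + x) / (1 - x) ^ 3 := by
  have h1 : 0 < 1 - x := by linarith
  have key : ∑ i ∈ Icc 1 N, (i : ℝ) ^ 2 * x ^ i = x * (1 + x) / (1 - x) ^ 3 -
      x ^ (N + 1) * (((N : ℝ) + 1) ^ 2 / (1 - x) + 2 * ((N : ℝ) + 1) * x / (1 - x) ^ 2 +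
        x * (1 + x) / (1 - x) ^ 3) := by
    induction N with
    | zero =>
      simp
      field_simp
      ring
    | succ N ih =>
      rw [Finset.sum_Icc_succ_top (by omega), ih]
      push_cast
      field_simp
      ring
  rw [key]
  have : 0 ≤ x ^ (N + 1) * (((N : ℝ) + 1) ^ 2 / (1 - x) + 2 * ((N : ℝ) + 1) * x / (1 - x) ^ 2 +
        x * (1 + x) / (1 - x) ^ 3) := by positivity
  linarith

lemma sum_geom {x : ℝ} (hx0 : 0 ≤ x) (hx1 : x < 1) (N : ℕ) :
    ∑ i ∈ Icc 1 N, (i : ℝ) * x ^ i ≤ x / (1 - x) ^ 2 := by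
  have h1 : 0 < 1 - x := by linarith
  have key : ∑ i ∈ Icc 1 N, (i : ℝ) * x ^ i = x / (1 - x) ^ 2 -
      x ^ (N + 1) * (((N : ℝ) + 1) / (1 - x) + x / (1 - x) ^ 2) := by
    induction N with
    | zero =>
      simp
      field_simp
      ring
    | succ N ih =>
      rw [Finset.sum_Icc_succ_top (by omega), ih]
      push_cast
      field_simp
      ring
  rw [key]
  have : 0 ≤ x ^ (N + 1) * (((N : ℝ) + 1) / (1 - x) + x / (1 - x) ^ 2) := by positivity
  linarith

lemma exp_half_sub (s : ℝ) : 1 - exp (-s) = 2 * sinh (s / 2) * exp (-(s / 2)) := by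
  rw [sinh_eq]
  have h1 : exp (-s) = exp (-(s / 2)) * exp (-(s / 2)) := by
    rw [← Real.exp_add]; congr 1; ring
  have h2 : exp (s / 2) * exp (-(s / 2)) = 1 := by
    rw [← Real.exp_add]; simp
  rw [h1]
  linear_combination -h2

lemma exp_half_add (s : ℝ) : 1 + exp (-s) = 2 * cosh (s / 2) * exp (-(s / 2)) := by
  rw [cosh_eq]
  have h1 : exp (-s) = exp (-(s / 2)) * exp (-(s / 2)) := by
    rw [← Real.exp_add]; congr 1; ring
  have h2 : exp (s / 2) * exp (-(s / 2)) = 1 := by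
    rw [← Real.exp_add]; simp
  rw [h1]
  linear_combination -h2

lemma bound3 {s : ℝ} (hs : 0 < s) :
    exp (-s) * (1 + exp (-s)) / (1 - exp (-s)) ^ 3 ≤ 2 / s ^ 3 := by
  rw [exp_half_sub, exp_half_add]
  have h1 : exp (-s) = exp (-(s / 2)) * exp (-(s / 2)) := by
    rw [← Real.exp_add]; congr 1; ring
  have hz : 0 < s / 2 := by positivity
  have hl := lazarevic hz
  have hsh : 0 < sinh (s / 2) := sinh_pos_iff.2 hz
  have he : 0 < exp (-(s / 2)) := exp_pos _
  have e : exp (-s) * (2 * cosh (s / 2) * exp (-(s / 2))) /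
      (2 * sinh (s / 2) * exp (-(s / 2))) ^ 3 = cosh (s / 2) / (4 * sinh (s / 2) ^ 3) := by
    rw [h1]
    field_simp
    ring
  rw [e, div_le_div_iff₀ (by positivity) (by positivity)]
  nlinarith

lemma bound2 {s : ℝ} (hs : 0 < s) : exp (-s) / (1 - exp (-s)) ^ 2 ≤ 1 / s ^ 2 := by
  rw [exp_half_sub]
  have h1 : exp (-s) = exp (-(s / 2)) * exp (-(s / 2)) := by
    rw [← Real.exp_add]; congr 1; ring
  have hz : 0 < s / 2 := by positivity
  have hl : s / 2 ≤ sinh (s / 2) := self_le_sinh_iff.2 hz.le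
  have hsh : 0 < sinh (s / 2) := sinh_pos_iff.2 hz
  have he : 0 < exp (-(s / 2)) := exp_pos _
  have e : exp (-s) / (2 * sinh (s / 2) * exp (-(s / 2))) ^ 2 = 1 / (4 * sinh (s / 2) ^ 2) := by
    rw [h1]
    field_simp
    ring
  rw [e]
  apply one_div_le_one_div_of_le (by positivity)
  nlinarith

lemma ka_eq {τ : ℝ} (hτ : 0 < τ) (i : ℕ) (hi : 1 ≤ i) :
    ka τ i = (i : ℝ) ^ 2 * (exp (-(i * τ)) / (1 - exp (-(i * τ))) ^ 2) := by
  unfold ka
  rw [exp_half_sub]
  have hi' : (0 : ℝ) < i := by exact_mod_cast hi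
  have h1 : exp (-(i * τ)) = exp (-(i * τ / 2)) * exp (-(i * τ / 2)) := by
    rw [← Real.exp_add]; congr 1; ring
  have hsh : 0 < sinh (i * τ / 2) := sinh_pos_iff.2 (by positivity)
  have he : 0 < exp (-(i * τ / 2)) := exp_pos _
  rw [h1]
  field_simp
  ring

lemma ka_nonneg (τ : ℝ) (i : ℕ) : 0 ≤ ka τ i := by
  unfold ka; positivity

lemma sum_ka_le {τ : ℝ} (hτ : 0 < τ) (M : ℕ) :
    ∑ i ∈ Icc 1 M, ka τ i ≤ (π ^ 2 / 3) / τ ^ 3 := by
  have hx : ∀ i ∈ Icc 1 M, HasSum (fun k : ℕ => (i : ℝ) ^ 2 * (k * exp (-(i * τ)) ^ k))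
      (ka τ i) := by
    intro i hi
    have hi1 := (Finset.mem_Icc.1 hi).1
    have hi' : (0 : ℝ) < i := by exact_mod_cast hi1
    rw [ka_eq hτ i hi1]
    apply HasSum.mul_left
    apply hasSum_coe_mul_geometric_of_norm_lt_one
    rw [Real.norm_of_nonneg (exp_pos _).le, Real.exp_lt_one_iff]
    have : 0 < (i : ℝ) * τ := by positivity
    linarith
  have h1 := hasSum_sum hx
  have h2 : HasSum (fun k : ℕ => 2 / τ ^ 3 * (1 / (k : ℝ) ^ 2)) (2 / τ ^ 3 * (π ^ 2 / 6)) :=
    hasSum_zeta_two.mul_left _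
  have h3 := hasSum_le (fun k => ?_) h1 h2
  · refine le_trans h3 (le_of_eq ?_)
    field_simp
    ring
  · rcases Nat.eq_zero_or_pos k with hk | hk
    · subst hk
      simp
    · have hk' : (0 : ℝ) < k := by exact_mod_cast hk
      have e1 : ∑ i ∈ Icc 1 M, (i : ℝ) ^ 2 * (k * exp (-(i * τ)) ^ k) =
          k * ∑ i ∈ Icc 1 M, (i : ℝ) ^ 2 * exp (-(k * τ)) ^ i := by
        rw [Finset.mul_sum]
        apply Finset.sum_congr rfl
        intro i _
        rw [← Real.exp_nat_mul, ← Real.exp_nat_mul]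
        have : (k : ℝ) * -(i * τ) = (i : ℝ) * -(k * τ) := by ring
        rw [this]
        ring
      rw [e1]
      have hkt : 0 < (k : ℝ) * τ := by positivity
      have h4 := sum_sq_geom (exp_pos (-(k * τ))).le
        (by rw [Real.exp_lt_one_iff]; linarith) M
      have h5 := le_trans h4 (bound3 hkt)
      calc (k : ℝ) * ∑ i ∈ Icc 1 M, (i : ℝ) ^ 2 * exp (-(k * τ)) ^ i ≤ k * (2 / (k * τ) ^ 3) :=
            mul_le_mul_of_nonneg_left h5 hk'.le
        _ = 2 / τ ^ 3 * (1 / (k : ℝ) ^ 2) := by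
          field_simp

lemma sum_mu_le {τ : ℝ} (hτ : 0 < τ) (M : ℕ) :
    ∑ i ∈ Icc 1 M, (i : ℝ) / (exp (i * τ) - 1) ≤ (π ^ 2 / 6) / τ ^ 2 := by
  have hx : ∀ i ∈ Icc 1 M, HasSum (fun k : ℕ => (i : ℝ) * (exp (-(i * τ)) ^ (k + 1)))
      ((i : ℝ) / (exp (i * τ) - 1)) := by
    intro i hi
    have hi1 := (Finset.mem_Icc.1 hi).1
    have hi' : (0 : ℝ) < i := by exact_mod_cast hi1
    have hit : 0 < (i : ℝ) * τ := by positivity
    have e : (i : ℝ) / (exp (i * τ) - 1) = i * (exp (-(i * τ)) * (1 - exp (-(i * τ)))⁻¹) := by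
      have h2 : exp (i * τ) * exp (-(i * τ)) = 1 := by
        rw [← Real.exp_add]; simp
      have h3 : 1 < exp (i * τ) := Real.one_lt_exp_iff.2 hit
      have h4 : exp (-(i * τ)) < 1 := by rw [Real.exp_lt_one_iff]; linarith
      have h5 : exp (i * τ) - 1 ≠ 0 := by linarith
      have h6 : 1 - exp (-(i * τ)) ≠ 0 := by linarith
      field_simp
      linear_combination -h2
    rw [e]
    apply HasSum.mul_left
    have h7 := (hasSum_geometric_of_lt_one (exp_pos (-(i * τ))).le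
      (by rw [Real.exp_lt_one_iff]; linarith)).mul_left (exp (-(i * τ)))
    refine h7.congr_fun ?_ |> fun h => h
    intro k
    rw [pow_succ, mul_comm]
  have h1 := hasSum_sum hx
  have h2 : HasSum (fun k : ℕ => 1 / τ ^ 2 * (1 / ((k : ℝ) + 1) ^ 2)) (1 / τ ^ 2 * (π ^ 2 / 6)) := by
    apply HasSum.mul_left
    have := (hasSum_nat_add_iff' 1).2 hasSum_zeta_two
    simpa using this
  have h3 := hasSum_le (fun k => ?_) h1 h2
  · refine le_trans h3 (le_of_eq ?_)
    field_simp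
  · have hk' : (0 : ℝ) < (k : ℝ) + 1 := by positivity
    have e1 : ∑ i ∈ Icc 1 M, (i : ℝ) * (exp (-(i * τ)) ^ (k + 1)) =
        ∑ i ∈ Icc 1 M, (i : ℝ) * exp (-(((k : ℝ) + 1) * τ)) ^ i := by
      apply Finset.sum_congr rfl
      intro i _
      rw [← Real.exp_nat_mul, ← Real.exp_nat_mul]
      congr 2
      push_cast
      ring
    rw [e1]
    have hkt : 0 < ((k : ℝ) + 1) * τ := by positivity
    have h4 := sum_geom (exp_pos (-(((k : ℝ) + 1) * τ))).le
      (by rw [Real.exp_lt_one_iff]; linarith) M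
    have h5 := le_trans h4 (bound2 hkt)
    refine le_trans h5 (le_of_eq ?_)
    field_simp

lemma D_le {F : ℕ → ℝ} (hF : ∀ i, 0 ≤ F i) (n : ℕ) :
    D n F ≤ ∑ i ∈ Icc 1 (2 * n), F i + ∑ i ∈ Ioc n (2 * n), F i := by
  unfold D
  have h1 : ∑ i ∈ Icc 1 (2 * n), F i = ∑ i ∈ Icc 1 n, F i + ∑ i ∈ Ioc n (2 * n), F i := by
    rw [← Finset.sum_union]
    · congr 1
      ext i
      simp only [Finset.mem_Icc, Finset.mem_union, Finset.mem_Ioc]
      omega
    · rw [Finset.disjoint_left]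
      intro i
      simp only [Finset.mem_Icc, Finset.mem_Ioc]
      omega
  have h2 : 0 ≤ ∑ i ∈ Ioc (3 * n) (6 * n), F i := Finset.sum_nonneg (fun i _ => hF i)
  rw [h1]
  linarith

/-- the second sum -/
lemma sum_tail {τ : ℝ} (hτ : 0 < τ) (n : ℕ) (h : 2 ≤ n * τ) :
    ∑ i ∈ Ioc n (2 * n), (i : ℝ) ^ 2 * exp (-(i * τ)) ≤
      exp (-(n * τ)) * ((n * τ) ^ 2 + 2 * (n * τ) + 2) / τ ^ 3 := by
  have hn : 0 < n := by
    rcases Nat.eq_zero_or_pos n with h0 | h0
    · subst h0; norm_num at h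
    · exact h0
  have hanti : AntitoneOn (fun x : ℝ => x ^ 2 * exp (-(x * τ))) (Set.Icc (n : ℝ) ((2 * n : ℕ) : ℝ)) := by
    apply antitoneOn_of_deriv_nonpos (convex_Icc _ _)
    · fun_prop
    · fun_prop
    · intro x hx
      rw [interior_Icc] at hx
      have h1 : HasDerivAt (fun x : ℝ => x ^ 2 * exp (-(x * τ)))
          (2 * x * exp (-(x * τ)) + x ^ 2 * (exp (-(x * τ)) * (-τ))) x := by
        have h2 : HasDerivAt (fun x : ℝ => -(x * τ)) (-τ) x :=
          (((hasDerivAt_id x).mul_const τ).neg).congr_deriv (by simp)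
        exact ((hasDerivAt_pow 2 x).mul h2.exp).congr_deriv (by simp)
      rw [h1.deriv]
      have hx1 : (n : ℝ) < x := hx.1
      have hxt : 2 ≤ x * τ := by nlinarith
      have hx0 : 0 ≤ x := by
        have : (0 : ℝ) ≤ n := by positivity
        linarith
      have e : 2 * x * exp (-(x * τ)) + x ^ 2 * (exp (-(x * τ)) * (-τ)) =
          -(x * exp (-(x * τ)) * (x * τ - 2)) := by ring
      rw [e]
      have : 0 ≤ x * exp (-(x * τ)) * (x * τ - 2) :=
        mul_nonneg (mul_nonneg hx0 (exp_pos _).le) (by linarith)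
      linarith
  have h1 := AntitoneOn.sum_le_integral_Ico (a := n) (b := 2 * n) (by omega) hanti
  have h2 : ∑ i ∈ Ico n (2 * n), (((i + 1 : ℕ) : ℝ)) ^ 2 * exp (-(((i + 1 : ℕ) : ℝ) * τ)) =
      ∑ i ∈ Ioc n (2 * n), (i : ℝ) ^ 2 * exp (-(i * τ)) := by
    rw [← Finset.sum_image (s := Ico n (2 * n)) (g := fun i => i + 1)
      (f := fun i : ℕ => (i : ℝ) ^ 2 * exp (-(i * τ)))]
    · congr 1
      ext i
      simp only [Finset.mem_image, Finset.mem_Ico, Finset.mem_Ioc]
      constructor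
      · rintro ⟨j, hj, rfl⟩
        omega
      · intro hi
        exact ⟨i - 1, by omega, by omega⟩
    · intro a _ b _ hab
      simpa using hab
  rw [h2] at h1
  refine le_trans h1 ?_
  have hG : ∀ x : ℝ, HasDerivAt
      (fun x : ℝ => -(exp (-(x * τ)) * ((x * τ) ^ 2 + 2 * (x * τ) + 2) / τ ^ 3))
      (x ^ 2 * exp (-(x * τ))) x := by
    intro x
    have h2 : HasDerivAt (fun x : ℝ => -(x * τ)) (-τ) x :=
      (((hasDerivAt_id x).mul_const τ).neg).congr_deriv (by simp)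
    have h3 : HasDerivAt (fun x : ℝ => x * τ) τ x :=
      ((hasDerivAt_id x).mul_const τ).congr_deriv (by simp)
    have h4 := ((h2.exp.mul (((h3.pow 2).add (h3.const_mul 2)).add_const 2)).div_const (τ ^ 3)).neg
    refine h4.congr_deriv ?_
    simp
    field_simp
    ring
  rw [intervalIntegral.integral_eq_sub_of_hasDerivAt (fun x _ => hG x)]
  · have : 0 ≤ exp (-(((2 * n : ℕ) : ℝ) * τ)) * ((((2 * n : ℕ) : ℝ) * τ) ^ 2 +
        2 * (((2 * n : ℕ) : ℝ) * τ) + 2) / τ ^ 3 := by positivity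
    linarith
  · apply Continuous.intervalIntegrable
    fun_prop

lemma V_le_aux {τ : ℝ} (hτ : 0 < τ) (n : ℕ) (h : 2 ≤ n * τ) (w : ℝ)
    (hw : exp (-(n * τ)) ≤ w) (hw1 : w < 1) :
    V n τ ≤ (π ^ 2 / 3 + exp (-(n * τ)) * ((n * τ) ^ 2 + 2 * (n * τ) + 2) / (1 - w) ^ 2) / τ ^ 3 := by
  unfold V
  refine le_trans (D_le (ka_nonneg τ) n) ?_
  rw [add_div]
  apply add_le_add (sum_ka_le hτ _)
  have h1 : ∀ i ∈ Ioc n (2 * n), ka τ i ≤ (i : ℝ) ^ 2 * exp (-(i * τ)) / (1 - w) ^ 2 := by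
    intro i hi
    have hi' := Finset.mem_Ioc.1 hi
    rw [ka_eq hτ i (by omega), ← mul_div_assoc]
    apply div_le_div_of_nonneg_left (by positivity) (by
      have : 0 < 1 - w := by linarith
      positivity)
    apply pow_le_pow_left₀ (by linarith)
    have : exp (-(i * τ)) ≤ exp (-(n * τ)) := by
      apply Real.exp_le_exp.2
      have : (n : ℝ) ≤ i := by exact_mod_cast hi'.1.le
      nlinarith
    linarith
  refine le_trans (Finset.sum_le_sum h1) ?_
  rw [← Finset.sum_div]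
  have h2 := sum_tail hτ n h
  have hw2 : 0 < (1 - w) ^ 2 := by
    have : 0 < 1 - w := by linarith
    positivity
  calc (∑ i ∈ Ioc n (2 * n), (i : ℝ) ^ 2 * exp (-(i * τ))) / (1 - w) ^ 2
      ≤ (exp (-(n * τ)) * ((n * τ) ^ 2 + 2 * (n * τ) + 2) / τ ^ 3) / (1 - w) ^ 2 :=
        div_le_div_of_nonneg_right h2 hw2.le
    _ = exp (-(n * τ)) * ((n * τ) ^ 2 + 2 * (n * τ) + 2) / (1 - w) ^ 2 / τ ^ 3 := by
        rw [div_div, div_div, mul_comm (τ ^ 3)]

lemma exp_neg_one_le : exp (-1) ≤ 0.36788 := by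
  have := Real.exp_neg_one_lt_d9
  linarith

lemma exp_neg_nat (k : ℕ) : exp (-(k : ℝ)) ≤ 0.36788 ^ k := by
  have : exp (-(k : ℝ)) = exp (-1) ^ k := by
    rw [← Real.exp_nat_mul]; congr 1; ring
  rw [this]
  exact pow_le_pow_left₀ (exp_pos _).le exp_neg_one_le k

lemma pi_sq_le : π ^ 2 ≤ 9.8697 := by
  have h1 := Real.pi_lt_d4
  have h2 := Real.pi_pos
  nlinarith

/-- `(u² + 2u + 2) e^{-u}` -/
lemma poly_exp {u : ℝ} {k : ℕ} (hk : 2 ≤ k) (h : (k : ℝ) ≤ u) :
    exp (-u) * (u ^ 2 + 2 * u + 2) ≤ ((k : ℝ) ^ 2 + 2 * k + 2) * exp (-(k : ℝ)) := by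
  have hk' : (2 : ℝ) ≤ k := by exact_mod_cast hk
  have hv : 0 ≤ u - k := by linarith
  have h1 := Real.quadratic_le_exp_of_nonneg hv
  have h2 : u ^ 2 + 2 * u + 2 ≤ ((k : ℝ) ^ 2 + 2 * k + 2) * exp (u - k) := by
    have h3 : u ^ 2 + 2 * u + 2 ≤ ((k : ℝ) ^ 2 + 2 * k + 2) * (1 + (u - k) + (u - k) ^ 2 / 2) := by
      nlinarith [sq_nonneg (u - k), mul_nonneg hv hv, mul_nonneg (mul_nonneg hv hv) (by linarith : (0 : ℝ) ≤ (k : ℝ) - 2)]
    exact le_trans h3 (mul_le_mul_of_nonneg_left h1 (by positivity))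
  calc exp (-u) * (u ^ 2 + 2 * u + 2) ≤ exp (-u) * (((k : ℝ) ^ 2 + 2 * k + 2) * exp (u - k)) :=
        mul_le_mul_of_nonneg_left h2 (exp_pos _).le
    _ = ((k : ℝ) ^ 2 + 2 * k + 2) * (exp (-u) * exp (u - k)) := by ring
    _ = ((k : ℝ) ^ 2 + 2 * k + 2) * exp (-(k : ℝ)) := by
      rw [← Real.exp_add]; congr 2; ring

lemma dec_exp {c y0 y : ℝ} (hy0 : 0 < y0) (h1 : 1 ≤ c * y0) (h : y0 ≤ y) :
    y * exp (-(c * y)) ≤ y0 * exp (-(c * y0)) := by
  have e1 : y / y0 ≤ exp (y / y0 - 1) := by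
    have := Real.add_one_le_exp (y / y0 - 1)
    linarith
  have e2 : y / y0 - 1 ≤ c * (y - y0) := by
    have h2 : y / y0 - 1 = (y - y0) * (1 / y0) := by field_simp
    rw [h2]
    have h3 : 1 / y0 ≤ c := by rw [div_le_iff₀ hy0]; exact h1
    nlinarith
  have e3 : y / y0 ≤ exp (c * (y - y0)) := le_trans e1 (Real.exp_le_exp.2 e2)
  have e4 : y ≤ y0 * exp (c * (y - y0)) := by
    rw [div_le_iff₀ hy0] at e3
    linarith
  calc y * exp (-(c * y)) ≤ y0 * exp (c * (y - y0)) * exp (-(c * y)) :=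
        mul_le_mul_of_nonneg_right e4 (exp_pos _).le
    _ = y0 * exp (-(c * y0)) := by
      rw [mul_assoc, ← Real.exp_add]
      congr 2
      ring

end VU

open VU

/-- VU -/
theorem V_up2 (n : ℕ) {τ : ℝ} (hτ : 0 < τ) (h : 2 ≤ n * τ) : V n τ ≤ 5.2 / τ ^ 3 := by
  have he : exp (-(n * τ)) ≤ 0.36788 ^ 2 := by
    refine le_trans (Real.exp_le_exp.2 ?_) (exp_neg_nat 2)
    push_cast
    linarith
  have h1 := V_le_aux hτ n h (0.36788 ^ 2) he (by norm_num)
  refine le_trans h1 (div_le_div_of_nonneg_right ?_ (by positivity))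
  have h2 := poly_exp (u := n * τ) (k := 2) le_rfl (by exact_mod_cast h)
  have h3 := exp_neg_nat 2
  have h4 : exp (-(n * τ)) * ((n * τ) ^ 2 + 2 * (n * τ) + 2) ≤ 10 * 0.36788 ^ 2 := by
    refine le_trans h2 ?_
    push_cast at h3 ⊢
    nlinarith
  have h5 : exp (-(n * τ)) * ((n * τ) ^ 2 + 2 * (n * τ) + 2) / (1 - 0.36788 ^ 2) ^ 2 ≤
      10 * 0.36788 ^ 2 / (1 - 0.36788 ^ 2) ^ 2 := div_le_div_of_nonneg_right h4 (by norm_num)
  have h6 : (10 * 0.36788 ^ 2 / (1 - 0.36788 ^ 2) ^ 2 : ℝ) ≤ 1.82 := by norm_num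
  have := pi_sq_le
  linarith

theorem V_up4 (n : ℕ) {τ : ℝ} (hτ : 0 < τ) (h : 4 ≤ n * τ) : V n τ ≤ 3.79 / τ ^ 3 := by
  have he : exp (-(n * τ)) ≤ 0.36788 ^ 4 := by
    refine le_trans (Real.exp_le_exp.2 ?_) (exp_neg_nat 4)
    push_cast
    linarith
  have h1 := V_le_aux hτ n (by linarith) (0.36788 ^ 4) he (by norm_num)
  refine le_trans h1 (div_le_div_of_nonneg_right ?_ (by positivity))
  have h2 := poly_exp (u := n * τ) (k := 4) (by norm_num) (by exact_mod_cast h)
  have h3 := exp_neg_nat 4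
  have h4 : exp (-(n * τ)) * ((n * τ) ^ 2 + 2 * (n * τ) + 2) ≤ 26 * 0.36788 ^ 4 := by
    refine le_trans h2 ?_
    push_cast at h3 ⊢
    nlinarith
  have h5 : exp (-(n * τ)) * ((n * τ) ^ 2 + 2 * (n * τ) + 2) / (1 - 0.36788 ^ 4) ^ 2 ≤
      26 * 0.36788 ^ 4 / (1 - 0.36788 ^ 4) ^ 2 := div_le_div_of_nonneg_right h4 (by norm_num)
  have h6 : (26 * 0.36788 ^ 4 / (1 - 0.36788 ^ 4) ^ 2 : ℝ) ≤ 0.4944 := by norm_num
  have := pi_sq_le
  linarith

theorem mu_le (n : ℕ) (hn : 150 ≤ n) : mu n (3 / (4 * Real.sqrt n)) ≤ 3 * n := by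
  have hN : (150 : ℝ) ≤ n := by exact_mod_cast hn
  have hN0 : (0 : ℝ) < n := by linarith
  have hs0 : 0 < √(n : ℝ) := Real.sqrt_pos.2 hN0
  have hs : 12.24 ≤ √(n : ℝ) := by
    apply Real.le_sqrt_of_sq_le
    norm_num
    linarith
  have hss : √(n : ℝ) ^ 2 = n := Real.sq_sqrt hN0.le
  obtain ⟨τ, hτdef⟩ : ∃ τ, τ = 3 / (4 * √(n : ℝ)) := ⟨_, rfl⟩
  have hτ : 0 < τ := by rw [hτdef]; positivity
  rw [← hτdef]
  have hτ2 : τ ^ 2 = 9 / (16 * n) := by
    rw [hτdef, div_pow, mul_pow, hss]; norm_num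
  have hu : n * τ = 3 / 4 * √(n : ℝ) := by
    rw [hτdef]
    have : (n : ℝ) = √(n : ℝ) * √(n : ℝ) := by rw [← sq]; exact hss.symm
    field_simp
    linarith
  unfold mu
  refine le_trans (D_le (fun i => ?_) n) ?_
  · apply div_nonneg (by positivity)
    have : 1 ≤ exp (i * τ) := Real.one_le_exp (by positivity)
    linarith
  · have h1 := sum_mu_le hτ (2 * n)
    -- second sum
    have hE : (1 : ℝ) / exp (n * τ) ≤ 0.8825 ^ 73 := by
      rw [one_div, ← Real.exp_neg]
      have e8 : exp (-(1 / 8)) ≤ 0.8825 := by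
        have e := Real.exp_bound (x := -(1 / 8 : ℝ)) (by rw [abs_neg, abs_of_nonneg] <;> norm_num)
          (n := 4) (by norm_num)
        simp only [Finset.sum_range_succ, Finset.sum_range_zero, Nat.factorial] at e
        norm_num [abs_of_nonneg] at e
        have := (abs_le.1 e).2
        norm_num at this ⊢
        linarith
      have h3 : exp (-(n * τ)) ≤ exp (-(1 / 8)) ^ 73 := by
        rw [← Real.exp_nat_mul]
        apply Real.exp_le_exp.2
        rw [hu]
        push_cast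
        linarith
      exact le_trans h3 (pow_le_pow_left₀ (exp_pos _).le e8 73)
    -- n / e^u
    have hnE : (n : ℝ) * (1 / exp (n * τ)) ≤ 150 * 0.8825 ^ 73 := by
      rw [one_div, ← Real.exp_neg, hu]
      have k1 := dec_exp (c := 3 / 8) (y0 := 12.24) (y := √(n : ℝ)) (by norm_num) (by norm_num) hs
      have k2 : (n : ℝ) * exp (-(3 / 4 * √(n : ℝ))) =
          (√(n : ℝ) * exp (-(3 / 8 * √(n : ℝ)))) ^ 2 := by
        rw [mul_pow, hss, ← Real.exp_nat_mul]
        congr 2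
        push_cast
        ring
      have k3 : (12.24 * exp (-(3 / 8 * 12.24))) ^ 2 = 12.24 ^ 2 * exp (-9.18) := by
        rw [mul_pow, ← Real.exp_nat_mul]
        congr 2
        norm_num
      have k4 : exp (-9.18) ≤ 0.8825 ^ 73 := by
        have e8 : exp (-(1 / 8)) ≤ 0.8825 := by
          have e := Real.exp_bound (x := -(1 / 8 : ℝ)) (by rw [abs_neg, abs_of_nonneg] <;> norm_num)
            (n := 4) (by norm_num)
          simp only [Finset.sum_range_succ, Finset.sum_range_zero, Nat.factorial] at e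
          norm_num [abs_of_nonneg] at e
          have := (abs_le.1 e).2
          norm_num at this ⊢
          linarith
        have h3 : exp (-9.18) ≤ exp (-(1 / 8)) ^ 73 := by
          rw [← Real.exp_nat_mul]
          apply Real.exp_le_exp.2
          norm_num
        exact le_trans h3 (pow_le_pow_left₀ (exp_pos _).le e8 73)
      have k5 := pow_le_pow_left₀ (by positivity) k1 2
      rw [k2]
      refine le_trans k5 ?_
      rw [k3]
      have k6 : (0 : ℝ) < exp (-9.18) := exp_pos _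
      calc 12.24 ^ 2 * exp (-9.18) ≤ 150 * exp (-9.18) :=
            mul_le_mul_of_nonneg_right (by norm_num) k6.le
        _ ≤ 150 * 0.8825 ^ 73 := mul_le_mul_of_nonneg_left k4 (by norm_num)
    have h2 : ∑ i ∈ Ioc n (2 * n), (i : ℝ) / (exp (i * τ) - 1) ≤ 0.07 * n := by
      have hterm : ∀ i ∈ Ioc n (2 * n), (i : ℝ) / (exp (i * τ) - 1) ≤ 0.07 := by
        intro i hi
        have hi' := Finset.mem_Ioc.1 hi
        have hi1 : (n : ℝ) ≤ i := by exact_mod_cast hi'.1.le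
        have hi2 : (i : ℝ) ≤ 2 * n := by exact_mod_cast hi'.2
        have h3 : exp (n * τ) ≤ exp (i * τ) := Real.exp_le_exp.2 (by nlinarith)
        have h5 : 0 < exp (n * τ) := exp_pos _
        have h6 : 1 ≤ 0.01 * exp (n * τ) := by
          rw [div_le_iff₀ h5] at hE
          refine le_trans hE ?_
          apply mul_le_mul_of_nonneg_right _ h5.le
          norm_num
        have h7 : (n : ℝ) ≤ 150 * 0.8825 ^ 73 * exp (n * τ) := by
          rw [mul_one_div, div_le_iff₀ h5] at hnE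
          exact hnE
        rw [div_le_iff₀ (by linarith)]
        have h8 : (150 * 0.8825 ^ 73 : ℝ) ≤ 0.0175 := by norm_num
        nlinarith
      refine le_trans (Finset.sum_le_sum hterm) ?_
      rw [Finset.sum_const, nsmul_eq_mul, Nat.card_Ioc]
      have : ((2 * n - n : ℕ) : ℝ) = n := by
        have : 2 * n - n = n := by omega
        rw [this]
      rw [this]
      linarith
    have h3 : (π ^ 2 / 6) / τ ^ 2 ≤ 2.9244 * n := by
      rw [hτ2, div_le_iff₀ (by positivity)]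
      have h4 : 2.9244 * (n : ℝ) * (9 / (16 * n)) = 2.9244 * 9 / 16 := by
        field_simp
      rw [h4]
      have := pi_sq_le
      norm_num
      linarith
    linarith

end C048
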