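import Pool.Agent.helper70.KU.Hfin

/-!
# Module CHK: the final numerical inequalities
-/

namespace C048

open Real

private lemma dec_exp {c y0 y : ℝ} (hy0 : 0 < y0) (h1 : 1 ≤ c * y0) (h : y0 ≤ y) :
    y * exp (-(c * y)) ≤ y0 * exp (-(c * y0)) := by
  have e1 : y / y0 ≤ exp (y / y0 - 1) := by
    have := Real.add_one_le_exp (y / y0 - 1)
    linarith
  have e2 : y / y0 - 1 ≤ c * (y - y0) := by
    have h2 : y / y0 - 1 = (y - y0) * (1 / y0) := by field_simp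
    rw [h2]
    have h3 : 1 / y0 ≤ c := by rw [div_le_iff₀ hy0]; exact h1
    nlinarith
  have e3 : y / y0 ≤ exp (c * (y - y0)) := le_trans e1 (Real.exp_le_exp.2 e2)
  have e4 : y ≤ y0 * exp (c * (y - y0)) := by
    rw [div_le_iff₀ hy0] at e3
    linarith
  calc y * exp (-(c * y)) ≤ y0 * exp (c * (y - y0)) * exp (-(c * y)) :=
        mul_le_mul_of_nonneg_right e4 (exp_pos _).le
    _ = y0 * exp (-(c * y0)) := by
      rw [mul_assoc, ← Real.exp_add]
      congr 2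
      ring

private lemma dec_exp3 {c y0 y : ℝ} (hy0 : 0 < y0) (h1 : 3 ≤ c * y0) (h : y0 ≤ y) :
    y ^ 3 * exp (-(c * y)) ≤ (y0 * exp (-(c / 3 * y0))) ^ 3 := by
  have h2 := dec_exp (c := c / 3) hy0 (by linarith) h
  have e : y ^ 3 * exp (-(c * y)) = (y * exp (-(c / 3 * y))) ^ 3 := by
    rw [mul_pow, ← Real.exp_nat_mul]
    congr 2
    push_cast
    ring
  rw [e]
  exact pow_le_pow_left₀ (mul_nonneg (by linarith) (exp_pos _).le) h2 3

private lemma exp_eighth : exp (-(1 / 8)) ≤ 0.8825 := by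
  have e := Real.exp_bound (x := -(1 / 8 : ℝ)) (by rw [abs_neg, abs_of_nonneg] <;> norm_num)
    (n := 4) (by norm_num)
  simp only [Finset.sum_range_succ, Finset.sum_range_zero, Nat.factorial] at e
  norm_num [abs_of_nonneg] at e
  have := (abs_le.1 e).2
  norm_num at this ⊢
  linarith

private lemma exp_k (k : ℕ) {x : ℝ} (hx : (k : ℝ) / 8 ≤ x) : exp (-x) ≤ 0.8825 ^ k := by
  have h1 : exp (-x) ≤ exp (-(1 / 8)) ^ k := by
    rw [← Real.exp_nat_mul]
    apply Real.exp_le_exp.2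
    linarith
  exact le_trans h1 (pow_le_pow_left₀ (exp_pos _).le exp_eighth k)

private lemma chk_gen (n : ℕ) (hn : 150 ≤ n) (V τ e4 e5 e6 c0 y0 r0 T0 a b u4 u5 u6 : ℝ)
    (hc0 : c0 * 150 = y0) (hV : c0 * (n : ℝ) ^ 3 ≤ V) (hV2 : V ≤ 4.84 * (n : ℝ) ^ 3)
    (hy0 : 36 ≤ y0) (hr0 : 0 < r0) (hr : r0 ^ 2 ≤ y0)
    (hA : exp (-(1 / 36 * y0)) ≤ a) (hB : exp (-(1 / 24 * y0)) ≤ b)
    (h4 : (n : ℝ) * e4 ≤ u4) (h5 : (n : ℝ) * e5 ≤ u5) (h6 : (n : ℝ) ^ 3 * e6 ≤ u6)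
    (p4 : 0 ≤ e4) (p5 : 0 ≤ e5) (p6 : 0 ≤ e6)
    (hT0 : 0 ≤ T0) (hT : T0 ≤ τ * Real.sqrt V)
    (hpos : 0 ≤ 0.7083 - 0.1746 * (y0 * a / r0) - 0.3491 * (y0 * b / r0)
        - 0.1804 * (0.7854 * u4 + 2.4293 * u5) - 3.1416 * 0.1804 * u6 / 150)
    (hfinal : 1.2338 + 0.0914 * (y0 * a) + 0.1828 * (y0 * b) + 4.84 * (0.9253 * u4 + 6.7664 * u5)
      + 4.84 * 4.935 * u6 < T0 * (0.7083 - 0.1746 * (y0 * a / r0) - 0.3491 * (y0 * b / r0)
        - 0.1804 * (0.7854 * u4 + 2.4293 * u5) - 3.1416 * 0.1804 * u6 / 150)) :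
    hfin n V τ e4 e5 e6 := by
  have hN : (150 : ℝ) ≤ n := by exact_mod_cast hn
  unfold hfin
  generalize (n : ℝ) = N at *
  have hN0 : 0 < N := by linarith
  have hc0' : 0 ≤ c0 := by linarith
  have hV0 : 0 ≤ V := le_trans (by positivity) hV
  obtain ⟨y, hy⟩ : ∃ y, y = V / N ^ 2 := ⟨_, rfl⟩
  obtain ⟨q, hq⟩ : ∃ q, q = √V / N := ⟨_, rfl⟩
  have hVy : V = y * N ^ 2 := by rw [hy]; field_simp
  have hsV : √V = q * N := by rw [hq]; field_simp
  have hq0 : 0 ≤ q := by rw [hq]; positivity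
  have hqq : q ^ 2 = y := by
    rw [hq, hy, div_pow, Real.sq_sqrt hV0]
  have hy1 : c0 * N ≤ y := by
    rw [hy, le_div_iff₀ (by positivity)]
    calc c0 * N * N ^ 2 = c0 * N ^ 3 := by ring
      _ ≤ V := hV
  have hy2 : y ≤ 4.84 * N := by
    rw [hy, div_le_iff₀ (by positivity)]
    calc V ≤ 4.84 * N ^ 3 := hV2
      _ = 4.84 * N * N ^ 2 := by ring
  have hyy0 : y0 ≤ y := by
    rw [← hc0]
    exact le_trans (mul_le_mul_of_nonneg_left hN hc0') hy1
  have hqr : r0 ≤ q := by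
    have : r0 ^ 2 ≤ q ^ 2 := by rw [hqq]; linarith
    exact le_of_sq_le_sq this hq0
  have hqN : q ≤ 0.1804 * N := by
    have : q ^ 2 ≤ (0.1804 * N) ^ 2 := by
      rw [hqq]
      have k1 : (0.1804 * N) ^ 2 = 0.1804 ^ 2 * N * N := by ring
      rw [k1]
      refine le_trans hy2 (mul_le_mul_of_nonneg_right ?_ hN0.le)
      norm_num
      linarith
    exact le_of_sq_le_sq this (by positivity)
  have eA : exp (-(V / (36 * N ^ 2))) = exp (-(1 / 36 * y)) := by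
    rw [hy]; congr 2; field_simp
  have eB : exp (-(V / (24 * N ^ 2))) = exp (-(1 / 24 * y)) := by
    rw [hy]; congr 2; field_simp
  have hyA : y * exp (-(1 / 36 * y)) ≤ y0 * a :=
    le_trans (dec_exp (by linarith) (by linarith) hyy0)
      (mul_le_mul_of_nonneg_left hA (by linarith))
  have hyB : y * exp (-(1 / 24 * y)) ≤ y0 * b :=
    le_trans (dec_exp (by linarith) (by linarith) hyy0)
      (mul_le_mul_of_nonneg_left hB (by linarith))
  rw [eA, eB, ← hq, ← hy]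
  have hA0 := exp_pos (-(1 / 36 * y))
  have hB0 := exp_pos (-(1 / 24 * y))
  generalize exp (-(1 / 36 * y)) = A at *
  generalize exp (-(1 / 24 * y)) = B at *
  have hqA : q * A ≤ y0 * a / r0 := by
    rw [le_div_iff₀ hr0]
    refine le_trans (mul_le_mul_of_nonneg_left hqr (mul_nonneg hq0 hA0.le)) (le_trans ?_ hyA)
    rw [← hqq]
    exact le_of_eq (by ring)
  have hqB : q * B ≤ y0 * b / r0 := by
    rw [le_div_iff₀ hr0]
    refine le_trans (mul_le_mul_of_nonneg_left hqr (mul_nonneg hq0 hB0.le)) (le_trans ?_ hyB)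
    rw [← hqq]
    exact le_of_eq (by ring)
  have hq4 : q * e4 ≤ 0.1804 * u4 := by
    calc q * e4 ≤ 0.1804 * N * e4 := mul_le_mul_of_nonneg_right hqN p4
      _ = 0.1804 * (N * e4) := by ring
      _ ≤ 0.1804 * u4 := by linarith
  have hq5 : q * e5 ≤ 0.1804 * u5 := by
    calc q * e5 ≤ 0.1804 * N * e5 := mul_le_mul_of_nonneg_right hqN p5
      _ = 0.1804 * (N * e5) := by ring
      _ ≤ 0.1804 * u5 := by linarith
  have hN2 : N ^ 2 * e6 ≤ u6 / 150 := by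
    rw [le_div_iff₀ (by norm_num)]
    calc N ^ 2 * e6 * 150 ≤ N ^ 2 * e6 * N := by
          apply mul_le_mul_of_nonneg_left hN; positivity
      _ = N ^ 3 * e6 := by ring
      _ ≤ u6 := h6
  have hq6 : q * N * e6 ≤ 0.1804 * (u6 / 150) := by
    calc q * N * e6 ≤ 0.1804 * N * N * e6 := by
          apply mul_le_mul_of_nonneg_right _ p6
          exact mul_le_mul_of_nonneg_right hqN hN0.le
      _ = 0.1804 * (N ^ 2 * e6) := by ring
      _ ≤ 0.1804 * (u6 / 150) := by linarith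
  have hy4 : y * e4 ≤ 4.84 * u4 := by
    calc y * e4 ≤ 4.84 * N * e4 := mul_le_mul_of_nonneg_right hy2 p4
      _ = 4.84 * (N * e4) := by ring
      _ ≤ 4.84 * u4 := by linarith
  have hy5 : y * e5 ≤ 4.84 * u5 := by
    calc y * e5 ≤ 4.84 * N * e5 := mul_le_mul_of_nonneg_right hy2 p5
      _ = 4.84 * (N * e5) := by ring
      _ ≤ 4.84 * u5 := by linarith
  have hV6 : V * e6 ≤ 4.84 * u6 := by
    calc V * e6 ≤ 4.84 * N ^ 3 * e6 := mul_le_mul_of_nonneg_right hV2 p6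
      _ = 4.84 * (N ^ 3 * e6) := by ring
      _ ≤ 4.84 * u6 := by linarith
  have hK : 0.7083 - 0.1746 * (y0 * a / r0) - 0.3491 * (y0 * b / r0)
        - 0.1804 * (0.7854 * u4 + 2.4293 * u5) - 3.1416 * 0.1804 * u6 / 150 ≤
      0.9173 - 0.209 - q * (0.1746 * A + 0.3491 * B + 0.7854 * e4 + 2.4293 * e5)
        - √V * 3.1416 * e6 := by
    have k1 : √V * 3.1416 * e6 = 3.1416 * (q * N * e6) := by rw [hsV]; ring
    have k2 : q * (0.1746 * A + 0.3491 * B + 0.7854 * e4 + 2.4293 * e5) =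
        0.1746 * (q * A) + 0.3491 * (q * B) + 0.7854 * (q * e4) + 2.4293 * (q * e5) := by ring
    have k3 : 3.1416 * 0.1804 * u6 / 150 = 3.1416 * (0.1804 * (u6 / 150)) := by ring
    rw [k1, k2, k3]
    linarith
  have hR : T0 * (0.7083 - 0.1746 * (y0 * a / r0) - 0.3491 * (y0 * b / r0)
        - 0.1804 * (0.7854 * u4 + 2.4293 * u5) - 3.1416 * 0.1804 * u6 / 150) ≤
      τ * √V * (0.9173 - 0.209 - q * (0.1746 * A + 0.3491 * B + 0.7854 * e4 + 2.4293 * e5)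
        - √V * 3.1416 * e6) :=
    mul_le_mul hT hK hpos (le_trans hT0 hT)
  have hL : 1.2338 + y * (0.0914 * A + 0.1828 * B + 0.9253 * e4 + 6.7664 * e5) +
      V * 4.935 * e6 ≤ 1.2338 + 0.0914 * (y0 * a) + 0.1828 * (y0 * b) +
      4.84 * (0.9253 * u4 + 6.7664 * u5) + 4.84 * 4.935 * u6 := by
    have k2 : y * (0.0914 * A + 0.1828 * B + 0.9253 * e4 + 6.7664 * e5) =
        0.0914 * (y * A) + 0.1828 * (y * B) + 0.9253 * (y * e4) + 6.7664 * (y * e5) := by ring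
    have k3 : V * 4.935 * e6 = 4.935 * (V * e6) := by ring
    rw [k2, k3]
    linarith
  exact lt_of_le_of_lt hL (lt_of_lt_of_le hfinal hR)

/-- CHK1 -/
theorem chk1 (n : ℕ) (hn : 150 ≤ n) (V τ : ℝ) (h1 : 3.277 * (n : ℝ) ^ 3 ≤ V)
    (h2 : V ≤ 4.84 * (n : ℝ) ^ 3) (h3 : 2.33 ≤ τ * Real.sqrt V) :
    hfin n V τ (Real.exp (-(0.29 * n))) (Real.exp (-(0.11 * n))) (Real.exp (-(0.28 * n))) := by
  have hN : (150 : ℝ) ≤ n := by exact_mod_cast hn
  refine chk_gen n hn V τ _ _ _ 3.277 491.55 22.1 2.33 (0.8825 ^ 108) (0.8825 ^ 108)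
    (150 * 0.8825 ^ 108) (150 * 0.8825 ^ 108) ((150 * 0.8825 ^ 108) ^ 3)
    (by norm_num) h1 h2 (by norm_num) (by norm_num) (by norm_num)
    (exp_k 108 (by norm_num)) (exp_k 108 (by norm_num)) ?_ ?_ ?_
    (exp_pos _).le (exp_pos _).le (exp_pos _).le (by norm_num) h3 (by norm_num) (by norm_num)
  · exact le_trans (dec_exp (by norm_num) (by norm_num) hN)
      (mul_le_mul_of_nonneg_left (exp_k 108 (by norm_num)) (by norm_num))
  · exact le_trans (dec_exp (by norm_num) (by norm_num) hN)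
      (mul_le_mul_of_nonneg_left (exp_k 108 (by norm_num)) (by norm_num))
  · exact le_trans (dec_exp3 (by norm_num) (by norm_num) hN)
      (pow_le_pow_left₀ (mul_nonneg (by norm_num) (exp_pos _).le)
        (mul_le_mul_of_nonneg_left (exp_k 108 (by norm_num)) (by norm_num)) 3)

private lemma sqrt_V_ge {N V c r : ℝ} (hN : 150 ≤ N) (hc : 0 ≤ c) (hr : 0 ≤ r)
    (hrc : r ^ 2 ≤ c * 150) (h : c * N ^ 3 ≤ V) : r * N ≤ √V := by
  apply Real.le_sqrt_of_sq_le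
  have h1 : r ^ 2 ≤ c * N := by nlinarith
  calc (r * N) ^ 2 = r ^ 2 * N ^ 2 := by ring
    _ ≤ c * N * N ^ 2 := mul_le_mul_of_nonneg_right h1 (by positivity)
    _ = c * N ^ 3 := by ring
    _ ≤ V := h

/-- CHK2 -/
theorem chk2 (n : ℕ) (hn : 150 ≤ n) (V τ : ℝ) (h1 : 0.89 * (n : ℝ) ^ 3 ≤ V)
    (h2 : V ≤ 4.84 * (n : ℝ) ^ 3) (h3 : 1 / (2 * n) ≤ τ) :
    hfin n V τ (Real.exp (-(0.063 * n))) (Real.exp (-(0.09 * n))) (Real.exp (-(0.27 * n))) := by
  have hN : (150 : ℝ) ≤ n := by exact_mod_cast hn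
  have hsq := sqrt_V_ge hN (by norm_num) (r := 11.55) (by norm_num) (by norm_num) h1
  have hT : 5.775 ≤ τ * √V := by
    have h4 : 0 < 1 / (2 * (n : ℝ)) := by positivity
    calc 5.775 = 1 / (2 * (n : ℝ)) * (11.55 * n) := by field_simp; norm_num
      _ ≤ τ * √V := mul_le_mul h3 hsq (by positivity) (by linarith)
  refine chk_gen n hn V τ _ _ _ 0.89 133.5 11.55 5.775 (0.8825 ^ 29) (0.8825 ^ 44)
    (150 * 0.8825 ^ 75) (150 * 0.8825 ^ 108) ((150 * 0.8825 ^ 108) ^ 3)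
    (by norm_num) h1 h2 (by norm_num) (by norm_num) (by norm_num)
    (exp_k 29 (by norm_num)) (exp_k 44 (by norm_num)) ?_ ?_ ?_
    (exp_pos _).le (exp_pos _).le (exp_pos _).le (by norm_num) hT (by norm_num) (by norm_num)
  · exact le_trans (dec_exp (by norm_num) (by norm_num) hN)
      (mul_le_mul_of_nonneg_left (exp_k 75 (by norm_num)) (by norm_num))
  · exact le_trans (dec_exp (by norm_num) (by norm_num) hN)
      (mul_le_mul_of_nonneg_left (exp_k 108 (by norm_num)) (by norm_num))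
  · exact le_trans (dec_exp3 (by norm_num) (by norm_num) hN)
      (pow_le_pow_left₀ (mul_nonneg (by norm_num) (exp_pos _).le)
        (mul_le_mul_of_nonneg_left (exp_k 108 (by norm_num)) (by norm_num)) 3)

/-- CHK3 -/
theorem chk3 (n : ℕ) (hn : 150 ≤ n) (V τ : ℝ) (h1 : 0.45 * (n : ℝ) ^ 3 ≤ V)
    (h2 : V ≤ 4.84 * (n : ℝ) ^ 3) (h3 : 3 / (2 * n) ≤ τ) :
    hfin n V τ (Real.exp (-(0.069 * n))) (Real.exp (-(0.2 * n))) (Real.exp (-(0.2 * n))) := by
  have hN : (150 : ℝ) ≤ n := by exact_mod_cast hn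
  have hsq := sqrt_V_ge hN (by norm_num) (r := 8.21) (by norm_num) (by norm_num) h1
  have hT : 12.315 ≤ τ * √V := by
    have h4 : 0 < 3 / (2 * (n : ℝ)) := by positivity
    calc 12.315 = 3 / (2 * (n : ℝ)) * (8.21 * n) := by field_simp; norm_num
      _ ≤ τ * √V := mul_le_mul h3 hsq (by positivity) (by linarith)
  refine chk_gen n hn V τ _ _ _ 0.45 67.5 8.21 12.315 (0.8825 ^ 15) (0.8825 ^ 22)
    (150 * 0.8825 ^ 82) (150 * 0.8825 ^ 108) ((150 * 0.8825 ^ 80) ^ 3)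
    (by norm_num) h1 h2 (by norm_num) (by norm_num) (by norm_num)
    (exp_k 15 (by norm_num)) (exp_k 22 (by norm_num)) ?_ ?_ ?_
    (exp_pos _).le (exp_pos _).le (exp_pos _).le (by norm_num) hT (by norm_num) (by norm_num)
  · exact le_trans (dec_exp (by norm_num) (by norm_num) hN)
      (mul_le_mul_of_nonneg_left (exp_k 82 (by norm_num)) (by norm_num))
  · exact le_trans (dec_exp (by norm_num) (by norm_num) hN)
      (mul_le_mul_of_nonneg_left (exp_k 108 (by norm_num)) (by norm_num))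
  · exact le_trans (dec_exp3 (by norm_num) (by norm_num) hN)
      (pow_le_pow_left₀ (mul_nonneg (by norm_num) (exp_pos _).le)
        (mul_le_mul_of_nonneg_left (exp_k 80 (by norm_num)) (by norm_num)) 3)

end C048
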