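import Pool.Agent.helper70.KU.Defs

/-!
# Module T1N: numerical lower bounds of `T1`
-/

namespace C048

open Real

private lemma sinh_le_mul_cosh {y : ℝ} (hy : 0 ≤ y) : sinh y ≤ y * cosh y := by
  have hmono : MonotoneOn (fun y : ℝ => y * cosh y - sinh y) (Set.Ici 0) := by
    apply monotoneOn_of_deriv_nonneg (convex_Ici 0)
    · fun_prop
    · fun_prop
    · intro x hx
      rw [interior_Ici] at hx
      have hx0 : 0 < x := hx
      have h1 : HasDerivAt (fun y : ℝ => y * cosh y - sinh y)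
          (1 * cosh x + x * sinh x - cosh x) x :=
        ((hasDerivAt_id x).mul (hasDerivAt_cosh x)).sub (hasDerivAt_sinh x)
      rw [h1.deriv]
      have : 0 ≤ x * sinh x := mul_nonneg hx0.le (sinh_nonneg_iff.2 hx0.le)
      linarith
  have := hmono (Set.mem_Ici.2 le_rfl) (Set.mem_Ici.2 hy) hy
  simp only [zero_mul, sinh_zero, sub_zero] at this
  linarith

private lemma tanh_le_self' {y : ℝ} (hy : 0 ≤ y) : tanh y ≤ y := by
  rw [tanh_eq_sinh_div_cosh, div_le_iff₀ (cosh_pos y)]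
  exact sinh_le_mul_cosh hy

private lemma sinh_le_poly {y : ℝ} (h0 : 0 ≤ y) (h1 : y ≤ 1) :
    sinh y ≤ y + y ^ 3 / 6 + y ^ 5 / 100 := by
  have e1 := Real.exp_bound (x := y) (by rw [abs_of_nonneg h0]; exact h1) (n := 5) (by norm_num)
  have e2 := Real.exp_bound (x := -y) (by rw [abs_neg, abs_of_nonneg h0]; exact h1) (n := 5)
    (by norm_num)
  rw [abs_neg] at e2
  rw [abs_of_nonneg h0] at e1 e2
  simp only [Finset.sum_range_succ, Finset.sum_range_zero, Nat.factorial] at e1 e2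
  norm_num at e1 e2
  rw [sinh_eq]
  have f1 := (abs_le.1 e1).2
  have f2 := (abs_le.1 e2).1
  nlinarith

private lemma sin_sq_ge {x : ℝ} (h0 : 0 ≤ x) (h1 : x ≤ 1) :
    x ^ 2 * (1 - x ^ 2 / 3 - x ^ 4 / 50) ≤ sin x ^ 2 := by
  have e := Real.sin_bound (x := x) (by rw [abs_of_nonneg h0]; exact h1)
  rw [abs_of_nonneg h0] at e
  have e1 := (abs_le.1 e).1
  have hx2 : x ^ 2 ≤ 1 := by nlinarith
  have hx4 : x ^ 4 ≤ 1 := by nlinarith [sq_nonneg x]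
  have hu0 : 0 ≤ 1 - x ^ 2 / 6 - x ^ 4 / 100 := by linarith
  have hL : x * (1 - x ^ 2 / 6 - x ^ 4 / 100) ≤ sin x := by
    have : x * (1 - x ^ 2 / 6 - x ^ 4 / 100) = x - x ^ 3 / 6 - x ^ 5 / 100 := by ring
    rw [this]; linarith
  have hL0 : 0 ≤ x * (1 - x ^ 2 / 6 - x ^ 4 / 100) := mul_nonneg h0 hu0
  have h2 : (x * (1 - x ^ 2 / 6 - x ^ 4 / 100)) ^ 2 ≤ sin x ^ 2 := by
    exact pow_le_pow_left₀ hL0 hL 2
  refine le_trans ?_ h2
  rw [mul_pow]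
  apply mul_le_mul_of_nonneg_left _ (sq_nonneg x)
  nlinarith [sq_nonneg (x ^ 2 / 6 + x ^ 4 / 100)]

private lemma sinh_half_sq {τ : ℝ} (h0 : 0 < τ) (h : τ ≤ 0.0613) :
    sinh (τ / 2) ^ 2 ≤ τ ^ 2 / 4 * 1.000314 := by
  have e := sinh_le_poly (y := τ / 2) (by positivity) (by linarith)
  have hs : 0 ≤ sinh (τ / 2) := sinh_nonneg_iff.2 (by positivity)
  have ht2 : τ ^ 2 ≤ 0.00375769 := by nlinarith
  have ht4 : τ ^ 4 ≤ 0.0000142 := by nlinarith [sq_nonneg τ]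
  have h2 : sinh (τ / 2) ≤ τ / 2 * 1.00015663 := by
    refine le_trans e ?_
    have : τ / 2 + (τ / 2) ^ 3 / 6 + (τ / 2) ^ 5 / 100 =
        τ / 2 * (1 + τ ^ 2 / 24 + τ ^ 4 / 1600) := by ring
    rw [this]
    apply mul_le_mul_of_nonneg_left _ (by positivity)
    linarith
  calc sinh (τ / 2) ^ 2 ≤ (τ / 2 * 1.00015663) ^ 2 := pow_le_pow_left₀ hs h2 2
    _ ≤ τ ^ 2 / 4 * 1.000314 := by
      rw [mul_pow, div_pow]
      norm_num
      nlinarith [sq_nonneg τ]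

private lemma sinh_sq_le {τ : ℝ} (h0 : 0 < τ) (h : τ ≤ 0.0613) :
    sinh τ ^ 2 ≤ τ ^ 2 * 1.001254 := by
  have e := sinh_le_poly (y := τ) (by positivity) (by linarith)
  have hs : 0 ≤ sinh τ := sinh_nonneg_iff.2 (by positivity)
  have ht2 : τ ^ 2 ≤ 0.00375769 := by nlinarith
  have ht4 : τ ^ 4 ≤ 0.0000142 := by nlinarith [sq_nonneg τ]
  have h2 : sinh τ ≤ τ * 1.00062645 := by
    refine le_trans e ?_
    have : τ + τ ^ 3 / 6 + τ ^ 5 / 100 = τ * (1 + τ ^ 2 / 6 + τ ^ 4 / 100) := by ring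
    rw [this]
    apply mul_le_mul_of_nonneg_left _ (by positivity)
    linarith
  calc sinh τ ^ 2 ≤ (τ * 1.00062645) ^ 2 := pow_le_pow_left₀ hs h2 2
    _ ≤ τ ^ 2 * 1.001254 := by
      rw [mul_pow]
      norm_num
      nlinarith [sq_nonneg τ]

private lemma T1_nonneg' {τ : ℝ} (hτ : 0 < τ) (θ : ℝ) : 0 ≤ T1 τ θ := by
  unfold T1
  have h1 : 0 < tanh (τ / 2) := by
    rw [tanh_eq_sinh_div_cosh]
    exact div_pos (sinh_pos_iff.2 (by positivity)) (cosh_pos _)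
  positivity

private lemma T1_lb {τ θ X0 S0 : ℝ} (hτ : 0 < τ) (hS : S0 ≤ sin (θ / 2) ^ 2) (hS0 : 0 ≤ S0)
    (hX : sinh (τ / 2) ^ 2 ≤ X0) : S0 / (τ * (X0 + S0)) ≤ T1 τ θ := by
  unfold T1
  have hs : 0 < sinh (τ / 2) := sinh_pos_iff.2 (by positivity)
  have h1 : 0 < tanh (τ / 2) := by
    rw [tanh_eq_sinh_div_cosh]
    exact div_pos hs (cosh_pos _)
  have h2 : tanh (τ / 2) ≤ τ / 2 := tanh_le_self' (by positivity)
  have hX1 : 0 < sinh (τ / 2) ^ 2 := by positivity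
  have hX0 : 0 < X0 := lt_of_lt_of_le hX1 hX
  generalize sin (θ / 2) ^ 2 = S at *
  generalize sinh (τ / 2) ^ 2 = X at *
  generalize tanh (τ / 2) = t at *
  have hSn : 0 ≤ S := le_trans hS0 hS
  rw [div_le_div_iff₀ (by positivity) (by positivity)]
  -- S0 * (2 t (X + S)) ≤ S * (τ (X0 + S0))
  have e1 : S0 * (X + S) ≤ S * (X0 + S0) := by nlinarith
  calc S0 * (2 * t * (X + S)) = (2 * t) * (S0 * (X + S)) := by ring
    _ ≤ τ * (S0 * (X + S)) := by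
      apply mul_le_mul_of_nonneg_right (by linarith)
      positivity
    _ ≤ τ * (S * (X0 + S0)) := by
      apply mul_le_mul_of_nonneg_left e1 hτ.le
    _ = S * (τ * (X0 + S0)) := by ring

/-- common form: `θ ≥ x τ` -/
private lemma T1_first {τ θ x b : ℝ} (hτ : 0 < τ) (h : τ ≤ 0.0613) (hx : 0 ≤ x) (hx5 : x ≤ 5)
    (h0 : x * τ ≤ θ) (h1 : θ ≤ Real.pi)
    (hb : x ^ 2 * 0.00031315 + x ^ 4 * 0.00000002 ≤ b) (hb1 : b ≤ 1) :
    x ^ 2 * (1 - b) / (1.000314 + x ^ 2 * (1 - b)) / τ ≤ T1 τ θ := by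
  have ht2 : τ ^ 2 ≤ 0.00375769 := by nlinarith
  have ht4 : τ ^ 4 ≤ 0.0000142 := by nlinarith [sq_nonneg τ]
  have hy0 : 0 ≤ x * τ / 2 := by positivity
  have hy1 : x * τ / 2 ≤ 1 := by nlinarith
  have hsin : sin (x * τ / 2) ≤ sin (θ / 2) := by
    apply Real.sin_le_sin_of_le_of_le_pi_div_two
    · linarith [Real.pi_pos]
    · linarith
    · linarith
  have hsin0 : 0 ≤ sin (x * τ / 2) := Real.sin_nonneg_of_nonneg_of_le_pi hy0 (by
    have := Real.pi_gt_three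
    linarith)
  have e := sin_sq_ge hy0 hy1
  have e2 : sin (x * τ / 2) ^ 2 ≤ sin (θ / 2) ^ 2 := pow_le_pow_left₀ hsin0 hsin 2
  have hS : τ ^ 2 / 4 * (x ^ 2 * (1 - b)) ≤ sin (θ / 2) ^ 2 := by
    refine le_trans ?_ (le_trans e e2)
    have : (x * τ / 2) ^ 2 * (1 - (x * τ / 2) ^ 2 / 3 - (x * τ / 2) ^ 4 / 50) =
        τ ^ 2 / 4 * (x ^ 2 * (1 - (x ^ 2 * (τ ^ 2 / 12) + x ^ 4 * (τ ^ 4 / 800)))) := by ring
    rw [this]
    apply mul_le_mul_of_nonneg_left _ (by positivity)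
    apply mul_le_mul_of_nonneg_left _ (by positivity)
    have a1 : x ^ 2 * (τ ^ 2 / 12) ≤ x ^ 2 * 0.00031315 :=
      mul_le_mul_of_nonneg_left (by linarith) (by positivity)
    have a2 : x ^ 4 * (τ ^ 4 / 800) ≤ x ^ 4 * 0.00000002 :=
      mul_le_mul_of_nonneg_left (by linarith) (by positivity)
    linarith
  have hb' : 0 ≤ 1 - b := by linarith
  have key := T1_lb hτ hS (by positivity) (sinh_half_sq hτ h)
  refine le_trans (le_of_eq ?_) key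
  have hpos : 0 < 1.000314 + x ^ 2 * (1 - b) := by positivity
  field_simp

/-- second term, `x τ ≤ θ ≤ 5 τ` -/
private lemma T1_second {τ θ x b : ℝ} (hτ : 0 < τ) (h : τ ≤ 0.0613) (hx : 0 ≤ x) (hx5 : x ≤ 1)
    (h0 : x * τ ≤ θ) (h1 : θ ≤ 5 * τ)
    (hb : x ^ 2 * 0.00125257 + x ^ 4 * 0.0000003 ≤ b) (hb1 : b ≤ 1) :
    x ^ 2 * (1 - b) / (1.001254 + x ^ 2 * (1 - b)) / (4 * τ) ≤ T1 (2 * τ) (2 * θ) / 2 := by
  have ht2 : τ ^ 2 ≤ 0.00375769 := by nlinarith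
  have ht4 : τ ^ 4 ≤ 0.0000142 := by nlinarith [sq_nonneg τ]
  have hy0 : 0 ≤ x * τ := by positivity
  have hy1 : x * τ ≤ 1 := by nlinarith
  have hsin : sin (x * τ) ≤ sin θ := by
    apply Real.sin_le_sin_of_le_of_le_pi_div_two
    · linarith [Real.pi_pos]
    · have := Real.pi_gt_three
      linarith
    · linarith
  have hsin0 : 0 ≤ sin (x * τ) := Real.sin_nonneg_of_nonneg_of_le_pi hy0 (by
    have := Real.pi_gt_three
    linarith)
  have e := sin_sq_ge hy0 hy1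
  have e2 : sin (x * τ) ^ 2 ≤ sin θ ^ 2 := pow_le_pow_left₀ hsin0 hsin 2
  have hS : τ ^ 2 * (x ^ 2 * (1 - b)) ≤ sin (2 * θ / 2) ^ 2 := by
    have h3 : 2 * θ / 2 = θ := by ring
    rw [h3]
    refine le_trans ?_ (le_trans e e2)
    have : (x * τ) ^ 2 * (1 - (x * τ) ^ 2 / 3 - (x * τ) ^ 4 / 50) =
        τ ^ 2 * (x ^ 2 * (1 - (x ^ 2 * (τ ^ 2 / 3) + x ^ 4 * (τ ^ 4 / 50)))) := by ring
    rw [this]
    apply mul_le_mul_of_nonneg_left _ (by positivity)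
    apply mul_le_mul_of_nonneg_left _ (by positivity)
    have a1 : x ^ 2 * (τ ^ 2 / 3) ≤ x ^ 2 * 0.00125257 :=
      mul_le_mul_of_nonneg_left (by linarith) (by positivity)
    have a2 : x ^ 4 * (τ ^ 4 / 50) ≤ x ^ 4 * 0.0000003 :=
      mul_le_mul_of_nonneg_left (by linarith) (by positivity)
    linarith
  have hb' : 0 ≤ 1 - b := by linarith
  have hX : sinh (2 * τ / 2) ^ 2 ≤ τ ^ 2 * 1.001254 := by
    have h3 : 2 * τ / 2 = τ := by ring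
    rw [h3]
    exact sinh_sq_le hτ h
  have key := T1_lb (τ := 2 * τ) (by positivity) hS (by positivity) hX
  have hpos : 0 < 1.001254 + x ^ 2 * (1 - b) := by positivity
  have e4 : x ^ 2 * (1 - b) / (1.001254 + x ^ 2 * (1 - b)) / (4 * τ) =
      τ ^ 2 * (x ^ 2 * (1 - b)) / (2 * τ * (τ ^ 2 * 1.001254 + τ ^ 2 * (x ^ 2 * (1 - b)))) / 2 := by
    field_simp
    ring
  rw [e4]
  linarith

/-- T1N: numerical lower bounds of `T1` -/
theorem T1_small {τ θ : ℝ} (hτ : 0 < τ) (h : τ ≤ 0.0613) (h0 : 0 ≤ θ) (h1 : θ ≤ 0.39 * τ) :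
    1.084 * θ ^ 2 / τ ^ 3 ≤ T1 τ θ + T1 (2 * τ) (2 * θ) / 2 := by
  have hx0 : 0 ≤ θ / τ := by positivity
  have hx1 : θ / τ ≤ 0.39 := by rw [div_le_iff₀ hτ]; exact h1
  have hθ : θ / τ * τ = θ := by field_simp
  have hπ := Real.pi_gt_three
  generalize θ / τ = x at *
  subst hθ
  have hx2 : x ^ 2 ≤ 0.1521 := by nlinarith
  have hx4 : x ^ 4 ≤ 0.0232 := by nlinarith [sq_nonneg x]
  have k1 := T1_first (θ := x * τ) (b := 0.000048) hτ h hx0 (by linarith) le_rfl (by linarith)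
    (by linarith) (by norm_num)
  have k2 := T1_second (θ := x * τ) (b := 0.000191) hτ h hx0 (by linarith) le_rfl (by linarith)
    (by linarith) (by norm_num)
  have e : 1.084 * (x * τ) ^ 2 / τ ^ 3 = (x ^ 2 * 1.084) / τ := by
    field_simp
  have f1 : x ^ 2 * 0.8677 ≤ x ^ 2 * (1 - 0.000048) / (1.000314 + x ^ 2 * (1 - 0.000048)) := by
    rw [le_div_iff₀ (by positivity), mul_assoc]
    apply mul_le_mul_of_nonneg_left _ (by positivity)
    linarith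
  have f2 : x ^ 2 * 0.8668 ≤ x ^ 2 * (1 - 0.000191) / (1.001254 + x ^ 2 * (1 - 0.000191)) := by
    rw [le_div_iff₀ (by positivity), mul_assoc]
    apply mul_le_mul_of_nonneg_left _ (by positivity)
    linarith
  have g1 : x ^ 2 * 0.8677 / τ ≤ x ^ 2 * (1 - 0.000048) / (1.000314 + x ^ 2 * (1 - 0.000048)) / τ :=
    div_le_div_of_nonneg_right f1 hτ.le
  have g2 : x ^ 2 * 0.8668 / (4 * τ) ≤
      x ^ 2 * (1 - 0.000191) / (1.001254 + x ^ 2 * (1 - 0.000191)) / (4 * τ) :=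
    div_le_div_of_nonneg_right f2 (by positivity)
  rw [e]
  have g3 : x ^ 2 * 1.084 / τ ≤ x ^ 2 * 0.8677 / τ + x ^ 2 * 0.8668 / (4 * τ) := by
    have : x ^ 2 * 0.8677 / τ + x ^ 2 * 0.8668 / (4 * τ) = x ^ 2 * (0.8677 + 0.2167) / τ := by
      field_simp
      ring
    rw [this]
    apply div_le_div_of_nonneg_right _ hτ.le
    apply mul_le_mul_of_nonneg_left _ (by positivity)
    norm_num
  linarith

private lemma T1_gen {τ θ x b b' c : ℝ} (hτ : 0 < τ) (h : τ ≤ 0.0613) (hx : 0 ≤ x) (hx5 : x ≤ 1)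
    (h0 : x * τ ≤ θ) (h1 : θ ≤ 5 * τ)
    (hb : x ^ 2 * 0.00031315 + x ^ 4 * 0.00000002 ≤ b) (hb1 : b ≤ 1)
    (hb' : x ^ 2 * 0.00125257 + x ^ 4 * 0.0000003 ≤ b') (hb1' : b' ≤ 1)
    (hc : c ≤ x ^ 2 * (1 - b) / (1.000314 + x ^ 2 * (1 - b)) +
      x ^ 2 * (1 - b') / (1.001254 + x ^ 2 * (1 - b')) / 4) :
    c / τ ≤ T1 τ θ + T1 (2 * τ) (2 * θ) / 2 := by
  have hπ := Real.pi_gt_three
  have k1 := T1_first (θ := θ) (b := b) hτ h hx (by linarith) h0 (by linarith) hb hb1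
  have k2 := T1_second (θ := θ) (b := b') hτ h hx hx5 h0 h1 hb' hb1'
  have k3 := div_le_div_of_nonneg_right hc hτ.le
  refine le_trans k3 ?_
  rw [add_div]
  have e : x ^ 2 * (1 - b') / (1.001254 + x ^ 2 * (1 - b')) / 4 / τ =
      x ^ 2 * (1 - b') / (1.001254 + x ^ 2 * (1 - b')) / (4 * τ) := by
    rw [div_div]
  rw [e]
  linarith

theorem T1_39 {τ θ : ℝ} (hτ : 0 < τ) (h : τ ≤ 0.0613) (h0 : 0.39 * τ ≤ θ) (h1 : θ ≤ 5 * τ) :
    0.1645 / τ ≤ T1 τ θ + T1 (2 * τ) (2 * θ) / 2 :=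
  T1_gen (x := 0.39) (b := 0.00005) (b' := 0.0002) hτ h (by norm_num) (by norm_num) h0 h1
    (by norm_num) (by norm_num) (by norm_num) (by norm_num) (by norm_num)

theorem T1_55 {τ θ : ℝ} (hτ : 0 < τ) (h : τ ≤ 0.0613) (h0 : 0.55 * τ ≤ θ) (h1 : θ ≤ 5 * τ) :
    0.2895 / τ ≤ T1 τ θ + T1 (2 * τ) (2 * θ) / 2 :=
  T1_gen (x := 0.55) (b := 0.0001) (b' := 0.0004) hτ h (by norm_num) (by norm_num) h0 h1
    (by norm_num) (by norm_num) (by norm_num) (by norm_num) (by norm_num)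

theorem T1_90 {τ θ : ℝ} (hτ : 0 < τ) (h : τ ≤ 0.0613) (h0 : 0.9 * τ ≤ θ) (h1 : θ ≤ 5 * τ) :
    0.558 / τ ≤ T1 τ θ + T1 (2 * τ) (2 * θ) / 2 :=
  T1_gen (x := 0.9) (b := 0.0003) (b' := 0.0011) hτ h (by norm_num) (by norm_num) h0 h1
    (by norm_num) (by norm_num) (by norm_num) (by norm_num) (by norm_num)

theorem T1_500 {τ θ : ℝ} (hτ : 0 < τ) (h : τ ≤ 0.0613) (h0 : 5 * τ ≤ θ) (h1 : θ ≤ Real.pi) :
    0.95 / τ ≤ T1 τ θ + T1 (2 * τ) (2 * θ) / 2 := by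
  have k1 := T1_first (θ := θ) (x := 5) (b := 0.008) hτ h (by norm_num) (by norm_num) h0 h1
    (by norm_num) (by norm_num)
  have k2 := T1_nonneg' (τ := 2 * τ) (by positivity) (2 * θ)
  have k3 : (0.95 : ℝ) / τ ≤ 5 ^ 2 * (1 - 0.008) / (1.000314 + 5 ^ 2 * (1 - 0.008)) / τ := by
    apply div_le_div_of_nonneg_right _ hτ.le
    norm_num
  linarith

end C048
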